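import Pool.Agent.J6H46.FP.Main

/-!
# The square is not a limit shape for weights bounded away from zero and infinity

First-passage percolation on `Z ^ 2` with independent identically distributed weights
which take values in an interval `[a, b]` with `0 < a`.  The time constant is never a multiple of
the sup norm.

Idea.  Suppose that it is.  Normalise so that the time constant is the sup norm and let `Phi l` be
the mean of the positive part of (passage time in the slab of the columns `0, ..., l` from the
origin to `l (1, ..., 1)`) minus `l`.  All deficits (passage times smaller than the norm) are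
controlled by `Phi` through a chain argument in the directions of the face of the cube: they are
`o(Phi l)` with high probability, because one may choose among many parallel tubes.  Paths with
a small excess are localised in a tube of width of the order of `Phi l`, so the excess has an
exponential upper tail on the scale `Phi l`.  A path through many slabs then either stays in
place and meets a slab with an excess of the order of `Phi l`, or moves and pays for it; this
gives `Phi (r l) >= r ^ (1 - eps) Phi l`.  The variance bound of Efron and Stein gives
`Phi l <= C l ^ (1 - delta)` for a fixed `delta > 0`.  This is a contradiction.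
-/

set_option autoImplicit false
open MeasureTheory ProbabilityTheory Filter Topology

namespace Pool.Agent.J6H46.Old.MP_081102_pr

/-- For independent identically distributed weights with values in `[a, b]`, `0 < a`,
the limit shape of first-passage percolation on `ℤ ^ 2` is not an axis-parallel square. -/
theorem result :
  ∀ (Ω : Type) [MeasurableSpace Ω] (P : Measure Ω) [IsProbabilityMeasure P]
    (τ : (Fin 2 → ℤ) × Fin 2 → Ω → ℝ),
    (∀ e, Measurable (τ e)) →
    iIndepFun τ P →
    (∀ e e', IdentDistrib (τ e) (τ e') P P) →
    ∀ (a b : ℝ), 0 < a →
    (∀ e, ∀ᵐ ω ∂P, a ≤ τ e ω ∧ τ e ω ≤ b) →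
    ¬ ∃ c : ℝ, 0 < c ∧ ∀ z : Fin 2 → ℤ, ∀ ε : ℝ, 0 < ε →
      Tendsto (fun n : ℕ => P {ω | ε < |sInf {t : ℝ | ∃ k : ℕ, ∃ γ : Fin (k+1) → Fin 2 → ℤ,
          γ 0 = 0 ∧ γ (Fin.last k) = (fun i => (n : ℤ) * z i) ∧
          (∀ j : Fin k, ∑ i, |γ j.succ i - γ j.castSucc i| = 1) ∧
          t = ∑ j : Fin k, ∑ i : Fin 2,
            ((if γ j.succ = γ j.castSucc + Pi.single i 1 then τ (γ j.castSucc, i) ω else 0) +
             (if γ j.castSucc = γ j.succ + Pi.single i 1 then τ (γ j.succ, i) ω else 0))}
          / (n : ℝ) - c * ‖(fun i => (z i : ℝ))‖|}) atTop (𝓝 0) := by
  intro Ω _ P _ τ hm hind hid a b ha hbd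
  exact Pool.Agent.J6H46.FP.cube_bounded (n := 1) le_rfl Ω P τ hm hind hid ha hbd

end Pool.Agent.J6H46.Old.MP_081102_pr
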